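import Pool.Agent.Q34.IPZ.Sep

/-!
# Recurrence with the proportion of independence, in short windows
-/

set_option autoImplicit false

open MeasureTheory Set Function Filter
open scoped ENNReal

namespace Pool.Agent.Q34.IPZ

open H370

/-- the measure of the returns -/
noncomputable def Ret (S : Set ℝ) (u : ℝ) : ℝ≥0∞ := volume {s : ℝ | s ∈ S ∧ s + u ∈ S}

theorem Ret_neg (S : Set ℝ) (u : ℝ) : Ret S (-u) = Ret S u := by
  have h : {s : ℝ | s ∈ S ∧ s + u ∈ S} = (fun s => s + u) ⁻¹' {s : ℝ | s ∈ S ∧ s + (-u) ∈ S} := by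
    ext s
    simp only [mem_ofPred_eq, mem_preimage]
    rw [add_neg_cancel_right]
    tauto
  unfold Ret
  rw [h, measure_preimage_add_right]

theorem corr {m : ℕ} (κ : ℕ) (S : Set ℝ) (hS : MeasurableSet S) (u : Fin m → ℝ) (J : Set ℝ)
    (hJ : MeasurableSet J) (hSJ : ∀ i t, t + u i ∈ S → t ∈ J) :
    ((2 * κ * m : ℕ) : ℝ≥0∞) * volume S ≤ ((κ * (κ + 1) : ℕ) : ℝ≥0∞) * volume J +
      ∑ p ∈ (Finset.univ : Finset (Fin m)).offDiag, Ret S (u p.2 - u p.1) := by
  classical
  have hpt : ∀ t : ℝ, ∑ i : Fin m, S.indicator (fun _ => ((2 * κ : ℕ) : ℝ≥0∞)) (t + u i) ≤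
      J.indicator (fun _ => ((κ * (κ + 1) : ℕ) : ℝ≥0∞)) t +
        ∑ p ∈ (Finset.univ : Finset (Fin m)).offDiag,
          {s : ℝ | s ∈ S ∧ s + (u p.2 - u p.1) ∈ S}.indicator (fun _ => (1 : ℝ≥0∞)) (t + u p.1) := by
    intro t
    set B : Finset (Fin m) := Finset.univ.filter (fun i => t + u i ∈ S) with hB
    have e1 : ∑ i : Fin m, S.indicator (fun _ => ((2 * κ : ℕ) : ℝ≥0∞)) (t + u i) =
        ((B.card * (2 * κ) : ℕ) : ℝ≥0∞) := by
      have : ∀ i : Fin m, S.indicator (fun _ => ((2 * κ : ℕ) : ℝ≥0∞)) (t + u i) =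
          if t + u i ∈ S then ((2 * κ : ℕ) : ℝ≥0∞) else 0 := fun i => by simp [indicator_apply]
      rw [Finset.sum_congr rfl fun i _ => this i, ← Finset.sum_filter, Finset.sum_const, nsmul_eq_mul,
        ← Nat.cast_mul]
    have e2 : ∑ p ∈ (Finset.univ : Finset (Fin m)).offDiag,
          {s : ℝ | s ∈ S ∧ s + (u p.2 - u p.1) ∈ S}.indicator (fun _ => (1 : ℝ≥0∞)) (t + u p.1) =
        ((B.offDiag.card : ℕ) : ℝ≥0∞) := by
      have h1 : ∀ p ∈ (Finset.univ : Finset (Fin m)).offDiag,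
          {s : ℝ | s ∈ S ∧ s + (u p.2 - u p.1) ∈ S}.indicator (fun _ => (1 : ℝ≥0∞)) (t + u p.1) =
          if t + u p.1 ∈ S ∧ t + u p.2 ∈ S then 1 else 0 := by
        intro p _
        rw [indicator_apply]
        have : t + u p.1 + (u p.2 - u p.1) = t + u p.2 := by ring
        simp only [mem_ofPred_eq, this]
      rw [Finset.sum_congr rfl h1, ← Finset.sum_filter, Finset.sum_const, nsmul_eq_mul, mul_one]
      congr 2
      ext p
      simp only [Finset.mem_filter, Finset.mem_offDiag, Finset.mem_univ, true_and, hB]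
      tauto
    rw [e1, e2]
    by_cases ht : t ∈ J
    · rw [indicator_of_mem ht, ← Nat.cast_add]
      have h2 : B.card * (2 * κ) ≤ κ * (κ + 1) + B.offDiag.card := by
        rw [Finset.offDiag_card]
        set n := B.card with hn
        have h3 : n ≤ n * n := Nat.le_mul_self n
        zify [h3]
        have h4 : (0 : ℤ) ≤ ((n : ℤ) - κ) * ((n : ℤ) - κ - 1) := by
          rcases le_or_gt ((n : ℤ) - κ) 0 with h | h
          · nlinarith
          · have : (1 : ℤ) ≤ (n : ℤ) - κ := h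
            nlinarith
        nlinarith
      exact_mod_cast h2
    · have h1 : B = ∅ := by
        rw [hB, Finset.filter_eq_empty_iff]
        intro i _ hi
        exact ht (hSJ i t hi)
      rw [h1]
      simp
  have hint := lintegral_mono (μ := (volume : Measure ℝ)) hpt
  have hm1 : ∀ i : Fin m, Measurable fun t : ℝ => S.indicator (fun _ => ((2 * κ : ℕ) : ℝ≥0∞)) (t + u i) := by
    intro i
    have h1 : Measurable (S.indicator (fun _ => ((2 * κ : ℕ) : ℝ≥0∞))) := measurable_const.indicator hS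
    exact h1.comp (measurable_id.add_const _)
  have hRm : ∀ v : ℝ, MeasurableSet {s : ℝ | s ∈ S ∧ s + v ∈ S} :=
    fun v => hS.inter ((measurable_id.add_const v) hS)
  have hm2 : ∀ p : Fin m × Fin m, Measurable fun t : ℝ =>
      {s : ℝ | s ∈ S ∧ s + (u p.2 - u p.1) ∈ S}.indicator (fun _ => (1 : ℝ≥0∞)) (t + u p.1) := by
    intro p
    have h1 : Measurable ({s : ℝ | s ∈ S ∧ s + (u p.2 - u p.1) ∈ S}.indicator (fun _ => (1 : ℝ≥0∞))) :=
      measurable_const.indicator (hRm _)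
    exact h1.comp (measurable_id.add_const _)
  rw [lintegral_finsetSum' _ (fun i _ => (hm1 i).aemeasurable),
    lintegral_add_left (measurable_const.indicator hJ),
    lintegral_finsetSum' _ (fun p _ => (hm2 p).aemeasurable),
    lintegral_indicator_const hJ] at hint
  have e3 : ∀ i : Fin m, ∫⁻ t : ℝ, S.indicator (fun _ => ((2 * κ : ℕ) : ℝ≥0∞)) (t + u i) =
      ((2 * κ : ℕ) : ℝ≥0∞) * volume S := by
    intro i
    rw [lintegral_add_right_eq_self (fun t => S.indicator (fun _ => ((2 * κ : ℕ) : ℝ≥0∞)) t) (u i),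
      lintegral_indicator_const hS]
  have e4 : ∀ p ∈ (Finset.univ : Finset (Fin m)).offDiag, ∫⁻ t : ℝ,
      {s : ℝ | s ∈ S ∧ s + (u p.2 - u p.1) ∈ S}.indicator (fun _ => (1 : ℝ≥0∞)) (t + u p.1) =
      Ret S (u p.2 - u p.1) := by
    intro p _
    rw [lintegral_add_right_eq_self
      (fun t => {s : ℝ | s ∈ S ∧ s + (u p.2 - u p.1) ∈ S}.indicator (fun _ => (1 : ℝ≥0∞)) t) (u p.1),
      lintegral_indicator_const (hRm _), one_mul]
    rfl
  rw [Finset.sum_congr rfl fun i _ => e3 i, Finset.sum_congr rfl e4, Finset.sum_const, Finset.card_univ,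
    Fintype.card_fin, nsmul_eq_mul, ← mul_assoc, ← Nat.cast_mul] at hint
  refine le_trans (le_of_eq ?_) hint
  congr 2
  ring

/-- the returns and the pairs -/
theorem Ret_le (A : Finset ℝ) {w : ℝ} (u : ℝ) :
    Ret (Nb A w) u ≤ ENNReal.ofReal (∑ x ∈ A, ∑ y ∈ A, max 0 (w - |y - x - u|)) := by
  classical
  have h1 : {s : ℝ | s ∈ Nb A w ∧ s + u ∈ Nb A w} ⊆
      ⋃ p ∈ A ×ˢ A, Ico (max (p.1 - w) (p.2 - u - w)) (min p.1 (p.2 - u)) := by
    rintro s ⟨⟨x, hx, h1, h2⟩, ⟨y, hy, h3, h4⟩⟩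
    simp only [mem_iUnion, mem_Ico, exists_prop]
    refine ⟨(x, y), Finset.mem_product.2 ⟨hx, hy⟩, ?_, ?_⟩
    · exact max_le (by linarith) (by linarith)
    · exact lt_min h1 (by linarith)
  unfold Ret
  refine (measure_mono h1).trans ((measure_biUnion_finset_le _ _).trans ?_)
  rw [Finset.sum_product, ENNReal.ofReal_sum_of_nonneg (fun x _ => Finset.sum_nonneg fun y _ => le_max_left _ _)]
  refine Finset.sum_le_sum fun x _ => ?_
  rw [ENNReal.ofReal_sum_of_nonneg (fun y _ => le_max_left _ _)]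
  refine Finset.sum_le_sum fun y _ => ?_
  rw [Real.volume_Ico]
  refine ENNReal.ofReal_le_ofReal (le_trans (le_of_eq ?_) (le_max_right _ _))
  rcases le_total x (y - u) with h | h
  · rw [min_eq_left h, max_eq_right (by linarith), abs_of_nonneg (by linarith)]
    ring
  · rw [min_eq_right h, max_eq_left (by linarith), abs_of_nonpos (by linarith)]
    ring

/-- the best `κ` -/
theorem exists_k (m : ℕ) (hm : 2 ≤ m) (θ : ℝ) (h0 : 0 ≤ θ) (h1 : θ ≤ 1) : ∃ κ : ℕ, κ ≤ m ∧
    θ ^ 2 - θ * (1 - θ) / (m - 1) ≤ (2 * κ * (m * θ) - κ * (κ + 1)) / (m * (m - 1)) := by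
  have hm2 : (2 : ℝ) ≤ m := by exact_mod_cast hm
  have hm0 : (0 : ℝ) < m := by linarith
  have hm1 : (0 : ℝ) < (m : ℝ) - 1 := by linarith
  refine ⟨⌊(m : ℝ) * θ⌋₊, ?_, ?_⟩
  · refine Nat.floor_le_of_le ?_
    calc (m : ℝ) * θ ≤ m * 1 := by gcongr
      _ = m := mul_one _
  · set κ : ℕ := ⌊(m : ℝ) * θ⌋₊ with hκ
    have h2 : (κ : ℝ) ≤ m * θ := Nat.floor_le (by positivity)
    have h3 : (m : ℝ) * θ < κ + 1 := Nat.lt_floor_add_one _
    rw [le_div_iff₀ (by positivity)]
    have h4 : (θ ^ 2 - θ * (1 - θ) / ((m : ℝ) - 1)) * ((m : ℝ) * (m - 1)) =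
        (m * θ) ^ 2 - m * θ := by
      field_simp
      ring
    rw [h4]
    nlinarith

/-- **Recurrence in short windows.** -/
theorem rec_short {F : ℂ → ℂ} (hF : GoodL F) (ε : ℝ) (hε : 0 < ε) (hε1 : ε ≤ 11 / 24) (η : ℝ) (hη : 0 < η)
    (m : ℕ) (hm : 2 ≤ m) : ∃ c : ℝ, 0 < c ∧ ∃ T0 : ℝ, 20 ≤ T0 ∧ ∀ T : ℝ, T0 ≤ T →
      ∃ A : Finset ℝ, (∀ x ∈ A, 0 < x ∧ x ≤ T ∧ SC F x) ∧
      ∀ a : Fin m → ℝ, (∀ i, |a i| ≤ c * (T * Real.log T)) → ∃ i j : Fin m, i < j ∧
        ((2 - cMTinv) ^ 2 * ε - (2 - cMTinv) * (1 - (2 - cMTinv) * ε) / (m - 1) - η) * MT T ≤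
          ∑ x ∈ A, ∑ y ∈ A, max 0 (1 - |(y - x) * Real.log T / (2 * Real.pi) - (a j - a i)| / ε) := by
  classical
  have hpi := Real.pi_pos
  have hpi3 := Real.pi_gt_three
  have hpi4 := Real.pi_lt_four
  have hg := cMTinv_gt_one
  have hn := Expl.cMTinv_num
  norm_num at hn
  set p : ℝ := 2 - cMTinv with hp
  have hp0 : 0 < p := by rw [hp]; linarith
  have hp1 : p ≤ 1 := by rw [hp]; linarith
  have hm2 : (2 : ℝ) ≤ m := by exact_mod_cast hm
  have hm0 : (0 : ℝ) < m := by linarith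
  have hm1 : (0 : ℝ) < (m : ℝ) - 1 := by linarith
  set θ : ℝ := p * ε with hθ
  have hθ0 : 0 ≤ θ := by positivity
  have hθ1 : θ ≤ 1 := by nlinarith
  obtain ⟨κ, hκm, hκ⟩ := exists_k m hm θ hθ0 hθ1
  have hκm' : (κ : ℝ) ≤ m := by exact_mod_cast hκm
  have hκ0 : (0 : ℝ) ≤ κ := Nat.cast_nonneg _
  set ν : ℝ := min (ε * η / 8) (p / 2) with hν
  have hν0 : 0 < ν := by positivity
  have hν1 : ν ≤ ε * η / 8 := min_le_left _ _
  have hνp : ν ≤ p / 2 := min_le_right _ _
  obtain ⟨T1, hT1, hsep⟩ := sepset hF ν hν0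
  set c : ℝ := ν / 64 with hc
  have hc0 : 0 < c := by positivity
  have ev : ∀ᶠ T : ℝ in atTop, 8 ≤ Real.log T := Real.tendsto_log_atTop.eventually_ge_atTop _
  obtain ⟨T2, hT2⟩ := ev.exists_forall_of_atTop
  refine ⟨c, hc0, max T1 (max T2 (4 / ν)), le_max_of_le_left hT1, fun T hT => ?_⟩
  have hTT1 : T1 ≤ T := (le_max_left _ _).trans hT
  have hTT2 : T2 ≤ T := ((le_max_left _ _).trans (le_max_right _ _)).trans hT
  have hTT3 : 4 / ν ≤ T := ((le_max_right _ _).trans (le_max_right _ _)).trans hT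
  have hT20 : 20 ≤ T := hT1.trans hTT1
  have hT0 : 0 < T := by linarith
  have hlog := hT2 T hTT2
  have hlog0 : 0 < Real.log T := by linarith
  have hνT : 4 ≤ ν * T := by
    rw [div_le_iff₀ hν0] at hTT3
    linarith
  obtain ⟨A, hA, hs, hcard⟩ := hsep T hTT1
  refine ⟨A, hA, fun a ha => ?_⟩
  set w : ℝ := ε * (2 * Real.pi / Real.log T) with hw
  have hw0 : 0 < w := by positivity
  have hw1 : w ≤ 1 := by
    have h1 : 2 * Real.pi / Real.log T ≤ 1 := by
      rw [div_le_one hlog0]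
      linarith
    have h2 : 0 ≤ 2 * Real.pi / Real.log T := by positivity
    rw [hw]
    nlinarith
  set u : Fin m → ℝ := fun i => a i * (2 * Real.pi / Real.log T) with hu
  set U : ℝ := c * T * (2 * Real.pi) with hU
  have huU : ∀ i, |u i| ≤ U := by
    intro i
    rw [hu]
    simp only
    rw [abs_mul, abs_of_pos (by positivity : 0 < 2 * Real.pi / Real.log T)]
    calc |a i| * (2 * Real.pi / Real.log T) ≤ c * (T * Real.log T) * (2 * Real.pi / Real.log T) :=
          mul_le_mul_of_nonneg_right (ha i) (by positivity)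
      _ = U := by
          rw [hU]
          field_simp
  set S : Set ℝ := Nb A w with hS
  have hSI : S ⊆ Icc (-1) T := by
    rintro t ⟨x, hx, h1, h2⟩
    have h3 := hA x hx
    exact ⟨by linarith, by linarith [h3.2.1]⟩
  set J : Set ℝ := Icc (-1 - U) (T + U) with hJ
  have hcorr := corr κ S (Nb_meas A w) u J measurableSet_Icc (by
    intro i t ht
    have h1 := hSI ht
    have h2 := abs_le.1 (huU i)
    exact ⟨by linarith [h1.1], by linarith [h1.2]⟩)
  have hvS : ENNReal.ofReal (θ * T - ε * ν * T) ≤ volume S := by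
    refine le_trans (ENNReal.ofReal_le_ofReal ?_) (vol_Nb (Finset.Subset.refl A) hw0.le fun x hx y hy hxy => ?_)
    · have h1 : w * ((p - ν) * MT T) ≤ w * A.card := mul_le_mul_of_nonneg_left hcard hw0.le
      refine le_trans (le_of_eq ?_) h1
      rw [hw, hθ]
      unfold MT
      field_simp
    · refine lt_of_le_of_lt ?_ (hs x hx y hy hxy)
      rw [hw]
      exact mul_le_mul_of_nonneg_right hε1 (by positivity)
  have hvJ : volume J ≤ ENNReal.ofReal (T + ν * T / 2) := by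
    rw [hJ, Real.volume_Icc]
    refine ENNReal.ofReal_le_ofReal ?_
    rw [hU, hc]
    nlinarith
  -- a pair with many returns
  set X : ℝ := (2 * κ * m * (θ * T - ε * ν * T) - κ * (κ + 1) * (T + ν * T / 2)) / (m * (m - 1)) with hX
  have hpair : ∃ i j : Fin m, i < j ∧ ENNReal.ofReal X ≤ Ret S (u j - u i) := by
    rcases le_or_gt X 0 with hX0 | hX0
    · refine ⟨⟨0, by omega⟩, ⟨1, by omega⟩, by simp, ?_⟩
      rw [ENNReal.ofReal_of_nonpos hX0]
      exact bot_le
    have hex : ∃ p ∈ (Finset.univ : Finset (Fin m)).offDiag, ENNReal.ofReal X ≤ Ret S (u p.2 - u p.1) := by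
      by_contra hcon
      push Not at hcon
      have hoff : ((Finset.univ : Finset (Fin m)).offDiag.card : ℝ) = m * (m - 1) := by
        rw [Finset.offDiag_card, Finset.card_univ, Fintype.card_fin, Nat.cast_sub (Nat.le_mul_self m)]
        push_cast
        ring
      have hne : ((Finset.univ : Finset (Fin m)).offDiag).Nonempty := by
        rw [← Finset.card_pos]
        have : (0 : ℝ) < ((Finset.univ : Finset (Fin m)).offDiag.card : ℝ) := by
          rw [hoff]
          positivity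
        exact_mod_cast this
      have h1 : ∑ p ∈ (Finset.univ : Finset (Fin m)).offDiag, Ret S (u p.2 - u p.1) <
          ENNReal.ofReal (m * (m - 1) * X) := by
        calc ∑ p ∈ (Finset.univ : Finset (Fin m)).offDiag, Ret S (u p.2 - u p.1)
            < ∑ _p ∈ (Finset.univ : Finset (Fin m)).offDiag, ENNReal.ofReal X := by
              refine ENNReal.sum_lt_sum_of_nonempty hne fun q hq => hcon q hq
          _ = ENNReal.ofReal (m * (m - 1) * X) := by
              rw [Finset.sum_const, nsmul_eq_mul, ← ENNReal.ofReal_natCast, ← ENNReal.ofReal_mul (by positivity), hoff]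
      have h2 : ENNReal.ofReal (2 * κ * m * (θ * T - ε * ν * T)) ≤ ((2 * κ * m : ℕ) : ℝ≥0∞) * volume S := by
        rw [ENNReal.ofReal_mul (by positivity)]
        refine mul_le_mul' (le_of_eq ?_) hvS
        rw [← ENNReal.ofReal_natCast]
        push_cast
        rfl
      have h3 : ((κ * (κ + 1) : ℕ) : ℝ≥0∞) * volume J ≤ ENNReal.ofReal (κ * (κ + 1) * (T + ν * T / 2)) := by
        rw [ENNReal.ofReal_mul (by positivity)]
        refine mul_le_mul' (le_of_eq ?_) hvJ
        rw [← ENNReal.ofReal_natCast]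
        push_cast
        rfl
      have h4 : ENNReal.ofReal (2 * κ * m * (θ * T - ε * ν * T)) <
          ENNReal.ofReal (κ * (κ + 1) * (T + ν * T / 2)) + ENNReal.ofReal (m * (m - 1) * X) := by
        refine (h2.trans (hcorr.trans (add_le_add h3 le_rfl))).trans_lt ?_
        exact ENNReal.add_lt_add_left ENNReal.ofReal_ne_top h1
      rw [← ENNReal.ofReal_add (by positivity) (by positivity)] at h4
      refine absurd h4 (not_lt.2 (ENNReal.ofReal_le_ofReal (le_of_eq ?_)))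
      rw [hX]
      field_simp
      ring
    obtain ⟨⟨i, j⟩, hij, h⟩ := hex
    rw [Finset.mem_offDiag] at hij
    rcases lt_or_gt_of_ne hij.2.2 with h1 | h1
    · exact ⟨i, j, h1, h⟩
    · refine ⟨j, i, h1, ?_⟩
      have : u i - u j = -(u j - u i) := by ring
      rw [this, Ret_neg]
      exact h
  obtain ⟨i, j, hij, hret⟩ := hpair
  refine ⟨i, j, hij, ?_⟩
  have hsum0 : 0 ≤ ∑ x ∈ A, ∑ y ∈ A, max 0 (w - |y - x - (u j - u i)|) :=
    Finset.sum_nonneg fun x _ => Finset.sum_nonneg fun y _ => le_max_left _ _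
  have h1 : X ≤ ∑ x ∈ A, ∑ y ∈ A, max 0 (w - |y - x - (u j - u i)|) :=
    (ENNReal.ofReal_le_ofReal_iff hsum0).1 (hret.trans (Ret_le A _))
  have h2 : ∑ x ∈ A, ∑ y ∈ A, max 0 (w - |y - x - (u j - u i)|) =
      w * ∑ x ∈ A, ∑ y ∈ A, max 0 (1 - |(y - x) * Real.log T / (2 * Real.pi) - (a j - a i)| / ε) := by
    rw [Finset.mul_sum]
    refine Finset.sum_congr rfl fun x _ => ?_
    rw [Finset.mul_sum]
    refine Finset.sum_congr rfl fun y _ => ?_
    rw [mul_max_of_nonneg _ _ hw0.le, mul_zero]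
    congr 1
    have h3 : y - x - (u j - u i) =
        (2 * Real.pi / Real.log T) * ((y - x) * Real.log T / (2 * Real.pi) - (a j - a i)) := by
      rw [hu]
      field_simp
    rw [h3, abs_mul, abs_of_pos (by positivity : 0 < 2 * Real.pi / Real.log T), hw]
    field_simp
  rw [h2] at h1
  set W : ℝ := ∑ x ∈ A, ∑ y ∈ A, max 0 (1 - |(y - x) * Real.log T / (2 * Real.pi) - (a j - a i)| / ε) with hW
  -- `X ≥ (θ² - θ(1-θ)/(m-1) - ε η) T`
  have h3 : (θ ^ 2 - θ * (1 - θ) / (m - 1) - ε * η) * T ≤ X := by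
    have e1 : X = (2 * κ * (m * θ) - κ * (κ + 1)) / (m * (m - 1)) * T -
        (2 * κ * m * ε + κ * (κ + 1) / 2) / (m * (m - 1)) * ν * T := by
      rw [hX]
      field_simp
      ring
    have h4 : (2 * κ * m * ε + κ * (κ + 1) / 2) / (m * (m - 1)) ≤ 8 := by
      rw [div_le_iff₀ (by positivity)]
      have h5 : κ * (m : ℝ) ≤ m * m := mul_le_mul_of_nonneg_right hκm' hm0.le
      have h6 : (κ : ℝ) * (κ + 1) ≤ m * (m + 1) :=
        mul_le_mul hκm' (by linarith) (by positivity) hm0.le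
      have h7 : 2 * κ * m * ε ≤ m * m := by
        have : 2 * κ * m * ε = (κ * m) * (2 * ε) := by ring
        rw [this]
        have h8 : 2 * ε ≤ 1 := by linarith
        have h9 : 0 ≤ (κ : ℝ) * m := by positivity
        nlinarith
      nlinarith
    have h5 : (2 * κ * m * ε + κ * (κ + 1) / 2) / (m * (m - 1)) * ν ≤ ε * η := by
      have h6 : 8 * ν ≤ ε * η := by linarith
      exact (mul_le_mul_of_nonneg_right h4 hν0.le).trans h6
    rw [e1]
    have h6 := mul_le_mul_of_nonneg_right hκ hT0.le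
    have h7 := mul_le_mul_of_nonneg_right h5 hT0.le
    linarith
  have h4 := h3.trans h1
  -- divide by `w`
  have e5 : (p ^ 2 * ε - p * (1 - p * ε) / (m - 1) - η) * MT T =
      (Real.log T / (2 * Real.pi * ε)) * ((θ ^ 2 - θ * (1 - θ) / (m - 1) - ε * η) * T) := by
    unfold MT
    rw [hθ]
    field_simp
  have e6 : W = (Real.log T / (2 * Real.pi * ε)) * (w * W) := by
    rw [hw]
    field_simp
  rw [e5, e6]
  exact mul_le_mul_of_nonneg_left h4 (by positivity)

end Pool.Agent.Q34.IPZ
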