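import Pool.Agent.Q247.AC.Line

/-!
# Homothetic patterns with a popular dilation in dense sets of real vectors

From the density Hales-Jewett theorem: for a finite pattern `f` in `ℝ^m` and `δ > 0` there are `M` and `c > 0` such
that for every set `S` of measure `≥ δ R^m` in a box of side `R` and arbitrary reals `h_1, …, h_M` of absolute value
`≤ c R` there is a nonempty set `I` of indices with the sum `h` of `h_i`, `i ∈ I`, such that the `t` with
`t + h f_j ∈ S` for all `j` have measure `≥ c R^m`.
-/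

set_option autoImplicit false

open MeasureTheory Set Function
open scoped ENNReal

namespace Pool.Agent.Q34.IPZ

/-- the shift of a word -/
noncomputable def sh {m k M : ℕ} (f : Fin k → Fin m → ℝ) (h : Fin M → ℝ) (x : Fin M → Fin k) : Fin m → ℝ :=
  ∑ i, h i • f (x i)

theorem sh_line {m k M : ℕ} (f : Fin k → Fin m → ℝ) (h : Fin M → ℝ) (V : Fin M → Fin k ⊕ Unit) (a : Fin k) :
    sh f h (fun l => Sum.elim id (fun _ => a) (V l)) =
      (∑ i, Sum.elim (fun b => h i • f b) (fun _ => 0) (V i)) +
        (∑ i ∈ Finset.univ.filter (fun i => V i = Sum.inr ()), h i) • f a := by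
  unfold sh
  rw [Finset.sum_smul, Finset.sum_filter, ← Finset.sum_add_distrib]
  refine Finset.sum_congr rfl fun i _ => ?_
  rcases hV : V i with b | b <;> simp [hV]

theorem hom (m k : ℕ) (hk : 1 ≤ k) (f : Fin k → Fin m → ℝ) (δ : ℝ) (hδ : 0 < δ) :
    ∃ M : ℕ, 1 ≤ M ∧ ∃ c : ℝ, 0 < c ∧ ∀ (T R : ℝ), 0 < R → ∀ S : Set (Fin m → ℝ), MeasurableSet S →
      S ⊆ Icc (fun _ => T) (fun _ => T + R) → ENNReal.ofReal (δ * R ^ m) ≤ volume S →
      ∀ h : Fin M → ℝ, (∀ i, |h i| ≤ c * R) →
      ∃ I : Finset (Fin M), I.Nonempty ∧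
        ENNReal.ofReal (c * R ^ m) ≤ volume {t : Fin m → ℝ | ∀ j, t + (∑ i ∈ I, h i) • f j ∈ S} := by
  classical
  have : Nonempty (Fin k) := ⟨⟨0, by omega⟩⟩
  have hk0 : (0 : ℝ) < k := by exact_mod_cast hk
  set δ' : ℝ := δ / (2 * 3 ^ m) with hδ'
  have hδ'0 : 0 < δ' := by positivity
  obtain ⟨M, hM, hdhj⟩ := Pool.Agent.Q247.AC.dens_card (Fin k) δ' hδ'0
  set F : ℝ := ∑ j, ∑ l, |f j l| with hF
  have hF0 : 0 ≤ F := Finset.sum_nonneg fun _ _ => Finset.sum_nonneg fun _ _ => abs_nonneg _
  have hFj : ∀ j l, |f j l| ≤ F := by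
    intro j l
    refine (Finset.single_le_sum (f := fun l => |f j l|) (fun _ _ => abs_nonneg _) (Finset.mem_univ l)).trans ?_
    exact Finset.single_le_sum (f := fun j => ∑ l, |f j l|)
      (fun _ _ => Finset.sum_nonneg fun _ _ => abs_nonneg _) (Finset.mem_univ j)
  have hM0 : (0 : ℝ) < M := by exact_mod_cast hM
  set L : Finset (Fin M → Fin k ⊕ Unit) := Finset.univ.filter (fun V => ∃ i, V i = Sum.inr ()) with hL
  set c : ℝ := min (1 / (M * (F + 1))) (δ / (2 * (L.card + 1))) with hc
  have hc0 : 0 < c := by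
    rw [hc]
    positivity
  refine ⟨M, hM, c, hc0, fun T R hR S hS hSI hvol h hh => ?_⟩
  have hRm : 0 < R ^ m := by positivity
  -- the words are short
  have hsh : ∀ x : Fin M → Fin k, ∀ l, |sh f h x l| ≤ R := by
    intro x l
    unfold sh
    rw [Finset.sum_apply]
    refine (Finset.abs_sum_le_sum_abs _ _).trans ?_
    have h1 : ∀ i ∈ (Finset.univ : Finset (Fin M)), |(h i • f (x i)) l| ≤ c * R * F := by
      intro i _
      rw [Pi.smul_apply, smul_eq_mul, abs_mul]
      exact mul_le_mul (hh i) (hFj _ _) (abs_nonneg _) (by positivity)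
    refine (Finset.sum_le_sum h1).trans ?_
    rw [Finset.sum_const, Finset.card_univ, Fintype.card_fin, nsmul_eq_mul]
    have h2 : c ≤ 1 / (M * (F + 1)) := min_le_left _ _
    have h3 : c * (M * (F + 1)) ≤ 1 := by
      rwa [le_div_iff₀ (by positivity)] at h2
    have h4 : (M : ℝ) * (c * R * F) ≤ c * (M * (F + 1)) * R := by
      have : 0 ≤ c * M * R := by positivity
      nlinarith
    nlinarith
  set J : Set (Fin m → ℝ) := Icc (fun _ => T - R) (fun _ => T + 2 * R) with hJ
  have hJm : MeasurableSet J := measurableSet_Icc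
  have hJv : volume J = ENNReal.ofReal ((3 * R) ^ m) := by
    rw [hJ, Real.volume_Icc_pi]
    have : ∀ i : Fin m, ENNReal.ofReal (T + 2 * R - (T - R)) = ENNReal.ofReal (3 * R) := by
      intro i
      congr 1
      ring
    rw [Finset.prod_congr rfl fun i _ => this i, Finset.prod_const, Finset.card_univ, Fintype.card_fin,
      ENNReal.ofReal_pow (by positivity)]
  set G : (Fin M → Fin k ⊕ Unit) → Set (Fin m → ℝ) := fun V =>
    {t | ∀ a, t + sh f h (fun l => Sum.elim id (fun _ => a) (V l)) ∈ S} with hG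
  have hGm : ∀ V, MeasurableSet (G V) := by
    intro V
    rw [hG]
    simp only [ofPred_forall]
    exact MeasurableSet.iInter fun a => (measurable_id.add_const _) hS
  -- the pointwise inequality
  have hpt : ∀ t : Fin m → ℝ, ∑ x : Fin M → Fin k, S.indicator (fun _ => (1 : ℝ≥0∞)) (t + sh f h x) ≤
      J.indicator (fun _ => ENNReal.ofReal (δ' * (k : ℝ) ^ M)) t +
        ∑ V ∈ L, (G V).indicator (fun _ => ENNReal.ofReal ((k : ℝ) ^ M)) t := by
    intro t
    set B : Finset (Fin M → Fin k) := Finset.univ.filter (fun x => t + sh f h x ∈ S) with hB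
    have e1 : ∑ x : Fin M → Fin k, S.indicator (fun _ => (1 : ℝ≥0∞)) (t + sh f h x) = ENNReal.ofReal B.card := by
      have : ∀ x : Fin M → Fin k, S.indicator (fun _ => (1 : ℝ≥0∞)) (t + sh f h x) =
          if t + sh f h x ∈ S then 1 else 0 := fun x => by simp [indicator_apply]
      rw [Finset.sum_congr rfl fun x _ => this x, ← Finset.sum_filter, Finset.sum_const, nsmul_eq_mul, mul_one,
        ENNReal.ofReal_natCast]
    rw [e1]
    by_cases ht : t ∈ J
    · rw [indicator_of_mem ht]
      rcases le_or_gt (B.card : ℝ) (δ' * (k : ℝ) ^ M) with hle | hgt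
      · exact (ENNReal.ofReal_le_ofReal hle).trans le_self_add
      · obtain ⟨V, i, hi, hV⟩ := hdhj M le_rfl B (by rwa [Fintype.card_fin])
        have hVL : V ∈ L := by
          rw [hL, Finset.mem_filter]
          exact ⟨Finset.mem_univ _, i, hi⟩
        have htV : t ∈ G V := by
          rw [hG]
          intro a
          have := hV a
          rw [hB, Finset.mem_filter] at this
          exact this.2
        have h1 : ENNReal.ofReal B.card ≤ (G V).indicator (fun _ => ENNReal.ofReal ((k : ℝ) ^ M)) t := by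
          rw [indicator_of_mem htV]
          refine ENNReal.ofReal_le_ofReal ?_
          have h2 : B.card ≤ k ^ M := by
            refine (Finset.card_le_univ _).trans ?_
            rw [Fintype.card_fun, Fintype.card_fin, Fintype.card_fin]
          exact_mod_cast h2
        refine h1.trans (le_trans ?_ le_add_self)
        exact Finset.single_le_sum (f := fun V => (G V).indicator (fun _ => ENNReal.ofReal ((k : ℝ) ^ M)) t)
          (fun _ _ => bot_le) hVL
    · have h1 : B = ∅ := by
        rw [hB, Finset.filter_eq_empty_iff]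
        intro x _ hx
        refine ht ?_
        have h2 := hSI hx
        rw [hJ]
        constructor
        · intro l
          have h3 := h2.1 l
          have h4 := (abs_le.1 (hsh x l)).2
          simp only [Pi.add_apply] at h3
          linarith
        · intro l
          have h3 := h2.2 l
          have h4 := (abs_le.1 (hsh x l)).1
          simp only [Pi.add_apply] at h3
          linarith
      rw [h1]
      simp
  -- integration
  have hint := lintegral_mono (μ := (volume : Measure (Fin m → ℝ))) hpt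
  have hms : ∀ x : Fin M → Fin k, Measurable fun t : Fin m → ℝ =>
      S.indicator (fun _ => (1 : ℝ≥0∞)) (t + sh f h x) := by
    intro x
    have h1 : Measurable (S.indicator (fun _ => (1 : ℝ≥0∞))) := measurable_const.indicator hS
    exact h1.comp (measurable_id.add_const _)
  rw [lintegral_finsetSum' _ (fun x _ => (hms x).aemeasurable),
    lintegral_add_left (measurable_const.indicator hJm),
    lintegral_finsetSum' _ (fun V _ => (measurable_const.indicator (hGm V)).aemeasurable),
    lintegral_indicator_const hJm] at hint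
  have e2 : ∀ x : Fin M → Fin k, ∫⁻ t : Fin m → ℝ, S.indicator (fun _ => (1 : ℝ≥0∞)) (t + sh f h x) = volume S := by
    intro x
    rw [lintegral_add_right_eq_self (fun t => S.indicator (fun _ => (1 : ℝ≥0∞)) t) (sh f h x),
      lintegral_indicator_const hS, one_mul]
  have e3 : ∀ V ∈ L, ∫⁻ t : Fin m → ℝ, (G V).indicator (fun _ => ENNReal.ofReal ((k : ℝ) ^ M)) t =
      ENNReal.ofReal ((k : ℝ) ^ M) * volume (G V) := fun V _ => lintegral_indicator_const (hGm V) _
  rw [Finset.sum_congr rfl fun x _ => e2 x, Finset.sum_congr rfl e3, Finset.sum_const, Finset.card_univ,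
    Fintype.card_fun, Fintype.card_fin, Fintype.card_fin, nsmul_eq_mul, hJv, ← Finset.mul_sum] at hint
  have hkM : (0 : ℝ) < (k : ℝ) ^ M := by positivity
  -- the sum of the measures
  have hsum : ENNReal.ofReal (δ / 2 * R ^ m) ≤ ∑ V ∈ L, volume (G V) := by
    by_contra hcon
    push Not at hcon
    have h1 : ENNReal.ofReal ((k : ℝ) ^ M * (δ * R ^ m)) ≤ ((k ^ M : ℕ) : ℝ≥0∞) * volume S := by
      rw [ENNReal.ofReal_mul hkM.le]
      refine mul_le_mul' ?_ hvol
      rw [← ENNReal.ofReal_natCast]
      push_cast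
      exact le_rfl
    have h2 : ENNReal.ofReal ((k : ℝ) ^ M) * ∑ V ∈ L, volume (G V) <
        ENNReal.ofReal ((k : ℝ) ^ M * (δ / 2 * R ^ m)) := by
      rw [ENNReal.ofReal_mul hkM.le]
      exact (ENNReal.mul_lt_mul_iff_right (ENNReal.ofReal_pos.2 hkM).ne' ENNReal.ofReal_ne_top).2 hcon
    have h3 : ENNReal.ofReal (δ' * (k : ℝ) ^ M) * ENNReal.ofReal ((3 * R) ^ m) =
        ENNReal.ofReal ((k : ℝ) ^ M * (δ / 2 * R ^ m)) := by
      rw [← ENNReal.ofReal_mul (by positivity)]
      congr 1
      rw [hδ', mul_pow]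
      field_simp
    rw [h3] at hint
    have h4 : ENNReal.ofReal ((k : ℝ) ^ M * (δ * R ^ m)) <
        ENNReal.ofReal ((k : ℝ) ^ M * (δ / 2 * R ^ m)) + ENNReal.ofReal ((k : ℝ) ^ M * (δ / 2 * R ^ m)) :=
      (h1.trans hint).trans_lt (ENNReal.add_lt_add_left ENNReal.ofReal_ne_top h2)
    rw [← ENNReal.ofReal_add (by positivity) (by positivity)] at h4
    refine absurd h4 (not_lt.2 (ENNReal.ofReal_le_ofReal (le_of_eq ?_)))
    ring
  -- a good line
  have hex : ∃ V ∈ L, ENNReal.ofReal (c * R ^ m) ≤ volume (G V) := by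
    by_contra hcon
    push Not at hcon
    have h1 : ∑ V ∈ L, volume (G V) ≤ ∑ _V ∈ L, ENNReal.ofReal (c * R ^ m) :=
      Finset.sum_le_sum fun V hV => (hcon V hV).le
    rw [Finset.sum_const, nsmul_eq_mul] at h1
    have h2 : ((L.card : ℕ) : ℝ≥0∞) * ENNReal.ofReal (c * R ^ m) < ENNReal.ofReal (δ / 2 * R ^ m) := by
      rw [← ENNReal.ofReal_natCast, ← ENNReal.ofReal_mul (by positivity)]
      rw [ENNReal.ofReal_lt_ofReal_iff (by positivity)]
      have h3 : c ≤ δ / (2 * (L.card + 1)) := min_le_right _ _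
      rw [le_div_iff₀ (by positivity)] at h3
      have h5 : (L.card : ℝ) * c < δ / 2 := by nlinarith
      nlinarith
    exact absurd (hsum.trans h1) (not_le.2 h2)
  obtain ⟨V, hV, hvV⟩ := hex
  refine ⟨Finset.univ.filter (fun i => V i = Sum.inr ()), ?_, ?_⟩
  · rw [hL, Finset.mem_filter] at hV
    obtain ⟨-, i, hi⟩ := hV
    exact ⟨i, Finset.mem_filter.2 ⟨Finset.mem_univ _, hi⟩⟩
  · refine hvV.trans (le_of_eq ?_)
    set b : Fin m → ℝ := ∑ i, Sum.elim (fun b => h i • f b) (fun _ => 0) (V i) with hb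
    have e : G V = (fun t => t + b) ⁻¹' {t : Fin m → ℝ |
        ∀ j, t + (∑ i ∈ Finset.univ.filter (fun i => V i = Sum.inr ()), h i) • f j ∈ S} := by
      ext t
      rw [hG]
      simp only [mem_ofPred_eq, mem_preimage]
      refine forall_congr' fun a => ?_
      rw [sh_line, add_assoc]
    rw [e, measure_preimage_add_right]

end Pool.Agent.Q34.IPZ
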