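import Pool.Agent.Q34.IPZ.Zeros
import Pool.Agent.H370R2.RightZeros

/-!
# Separated simple critical zeros in `(0, T]`
-/

set_option autoImplicit false

open MeasureTheory Set Function Filter
open scoped ENNReal

namespace Pool.Agent.Q34.IPZ

open H370

/-- the ordinates of the simple critical zeros -/
def SC (F : ℂ → ℂ) (x : ℝ) : Prop :=
  (1 / 2 + x * Complex.I : ℂ) ∈ zset F 0 x ∧ mult F (1 / 2 + x * Complex.I : ℂ) = 1

theorem SC_of_SF {F : ℂ → ℂ} (hF : GoodL F) {T₁ T₂ x : ℝ} (h : 1 ≤ T₁) (hx : x ∈ SF F T₁ T₂) :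
    T₁ < x ∧ x ≤ T₂ ∧ SC F x := by
  classical
  unfold SF at hx
  simp only [Finset.mem_image, Finset.mem_filter, mem_Zf hF h, zset, mem_ofPred_eq] at hx
  obtain ⟨s, ⟨⟨h1, h2, h3, h4, h5⟩, h6, h7⟩, rfl⟩ := hx
  have e : (1 / 2 : ℂ) + (s.im : ℂ) * Complex.I = s := by
    apply Complex.ext
    · simp [h6]
    · simp
  refine ⟨h3, h4, ?_, ?_⟩
  · rw [e]
    exact ⟨h1, h2, by linarith, le_rfl, h5⟩
  · rw [e]
    exact h7

/-- the main term -/
noncomputable def MT (T : ℝ) : ℝ := T * Real.log T / (2 * Real.pi)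

theorem block {F : ℂ → ℂ} (hF : GoodL F) (η : ℝ) (hη : 0 < η) (hη1 : η ≤ 1 / 2) : ∃ T0 : ℝ, 20 ≤ T0 ∧
    ∀ T : ℝ, T0 ≤ T → ∃ A : Finset ℝ, (∀ x ∈ A, T / 2 < x ∧ x ≤ T ∧ SC F x) ∧
      (∀ x ∈ A, ∀ y ∈ A, x ≠ y → 11 / 24 * (2 * Real.pi / Real.log T) < |x - y|) ∧
      (2 - cMTinv - η) * (1 / 2 * MT T) ≤ A.card := by
  obtain ⟨δ, hδ, T1, hT1, hsep⟩ := Pool.Agent.Q34.SP.separated hF (lam := 11 / 24) (c0 := 1) (by norm_num)
    (by norm_num) (by norm_num) Pool.Agent.Q34.SP.block_one (η / 2) (by positivity)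
  obtain ⟨C, T2, hC, hT2, hasy⟩ := nn_asymp hF
  have hpi := Real.pi_pos
  have ev : ∀ᶠ T : ℝ in atTop, 8 * Real.pi * (C + 1) / η ≤ Real.log T :=
    Real.tendsto_log_atTop.eventually_ge_atTop _
  obtain ⟨T3, hT3⟩ := ev.exists_forall_of_atTop
  refine ⟨max (2 * T1) (max (2 * T2) T3), le_max_of_le_left (by linarith), fun T hT => ?_⟩
  have hTT1 : T1 ≤ T / 2 := by linarith [(le_max_left _ _).trans hT]
  have hTT2 : T2 ≤ T / 2 := by linarith [((le_max_left _ _).trans (le_max_right _ _)).trans hT]
  have hTT3 : T3 ≤ T := ((le_max_right _ _).trans (le_max_right _ _)).trans hT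
  have hT10 : 10 ≤ T / 2 := hT1.trans hTT1
  have hlog := hT3 T hTT3
  have hlog0 : 0 < Real.log T := lt_of_lt_of_le (by positivity) hlog
  have hlog2 : 0 < Real.log (T / 2) := Real.log_pos (by linarith)
  have hlogle : Real.log (T / 2) ≤ Real.log T := Real.log_le_log (by linarith) (by linarith)
  obtain ⟨⟨A, hA, hAs, hAc⟩, -⟩ := hsep (T / 2) hTT1
  have e2 : 2 * (T / 2) = T := by ring
  rw [e2] at hA hAc
  have h2 := (abs_le.1 (hasy (T / 2) hTT2 (T / 2) (2 * (T / 2)) le_rfl (by linarith) (by linarith) le_rfl)).1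
  rw [e2] at h2
  have hc1 := cMTinv_gt_one
  have hc2 := Expl.cMTinv_num
  refine ⟨A, fun x hx => SC_of_SF hF (by linarith) (hA hx), fun x hx y hy hxy => ?_, ?_⟩
  · refine lt_of_le_of_lt ?_ (hAs x hx y hy hxy)
    have h3 : 2 * Real.pi / Real.log T ≤ 2 * Real.pi / Real.log (T / 2) :=
      div_le_div_of_nonneg_left (by positivity) hlog2 hlogle
    have h4 : 0 < 2 * Real.pi / Real.log T := by positivity
    calc 11 / 24 * (2 * Real.pi / Real.log T) ≤ 11 / 24 * (2 * Real.pi / Real.log (T / 2)) :=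
          mul_le_mul_of_nonneg_left h3 (by norm_num)
      _ ≤ (1 + δ) * (11 / 24) * (2 * Real.pi / Real.log (T / 2)) := by
          have h5 : 0 < 2 * Real.pi / Real.log (T / 2) := by positivity
          refine mul_le_mul_of_nonneg_right ?_ h5.le
          nlinarith
  · rw [one_mul] at hAc
    refine le_trans ?_ hAc
    -- `NN ≥ MT/2 - (C+1) T`
    have h3 : 1 / 2 * MT T - (C + 1) * T ≤ (NN F (T / 2) T : ℝ) := by
      have h4 : Real.log (T / 2) = Real.log T - Real.log 2 := Real.log_div (by linarith) (by norm_num)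
      have h5 : T / 2 * Real.log (T / 2) / (2 * Real.pi) = 1 / 2 * MT T - T * Real.log 2 / (4 * Real.pi) := by
        rw [h4]
        unfold MT
        field_simp
        ring
      have h6 : T * Real.log 2 / (4 * Real.pi) ≤ T := by
        rw [div_le_iff₀ (by positivity)]
        have h7 : Real.log 2 ≤ 1 := by
          have := Real.log_two_lt_d9
          linarith
        have h8 := Real.pi_gt_three
        have h9 : 0 < T := by linarith
        nlinarith
      have h7 : C * (T / 2) ≤ C * T := mul_le_mul_of_nonneg_left (by linarith) hC.le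
      rw [h5] at h2
      linarith
    have h4 : (C + 1) * T ≤ η / 4 * MT T := by
      unfold MT
      rw [div_le_iff₀ hη] at hlog
      have e : η / 4 * (T * Real.log T / (2 * Real.pi)) = T * ((Real.log T * η) / (8 * Real.pi)) := by
        field_simp
        ring
      rw [e, mul_comm (C + 1) T]
      refine mul_le_mul_of_nonneg_left ?_ (by linarith)
      rw [le_div_iff₀ (by positivity)]
      linarith
    have h5 : 0 ≤ MT T := by
      unfold MT
      have : 0 < T := by linarith
      positivity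
    norm_num at hc2
    have h6 : 0 ≤ 2 - cMTinv - η / 2 := by linarith
    have h7 : 2 - cMTinv - η / 2 ≤ 1 := by linarith
    calc (2 - cMTinv - η) * (1 / 2 * MT T)
        = (2 - cMTinv - η / 2) * (1 / 2 * MT T) - η / 4 * MT T := by ring
      _ ≤ (2 - cMTinv - η / 2) * (1 / 2 * MT T) - (C + 1) * T := by linarith
      _ ≤ (2 - cMTinv - η / 2) * (1 / 2 * MT T) - (2 - cMTinv - η / 2) * ((C + 1) * T) := by
          have h8 : 0 ≤ (C + 1) * T := by
            have : 0 < T := by linarith
            positivity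
          nlinarith
      _ = (2 - cMTinv - η / 2) * (1 / 2 * MT T - (C + 1) * T) := by ring
      _ ≤ _ := mul_le_mul_of_nonneg_left h3 h6

theorem dyadic {F : ℂ → ℂ} (hF : GoodL F) (K : ℕ) : ∀ η : ℝ, 0 < η → η ≤ 1 / 2 → ∃ T0 : ℝ, 20 ≤ T0 ∧
    ∀ T : ℝ, T0 ≤ T → ∃ A : Finset ℝ, (∀ x ∈ A, 0 < x ∧ x ≤ T ∧ SC F x) ∧
      (∀ x ∈ A, ∀ y ∈ A, x ≠ y → 11 / 24 * (2 * Real.pi / Real.log T) < |x - y|) ∧
      (2 - cMTinv - η) * ((1 - 1 / 2 ^ K) * MT T) ≤ A.card := by
  classical
  induction K with
  | zero =>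
    intro η _ _
    exact ⟨20, le_rfl, fun T _ => ⟨∅, by simp, by simp, by simp⟩⟩
  | succ K ih =>
    intro η hη hη1
    obtain ⟨T1, hT1, h1⟩ := block hF (η / 2) (by positivity) (by linarith)
    obtain ⟨T2, hT2, h2⟩ := ih (η / 2) (by positivity) (by linarith)
    have hpi := Real.pi_pos
    have ev : ∀ᶠ T : ℝ in atTop, 16 * Real.pi / η ≤ Real.log T :=
      Real.tendsto_log_atTop.eventually_ge_atTop _
    obtain ⟨T3, hT3⟩ := ev.exists_forall_of_atTop
    refine ⟨max T1 (max (2 * T2) T3), le_max_of_le_left hT1, fun T hT => ?_⟩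
    have hTT1 : T1 ≤ T := (le_max_left _ _).trans hT
    have hTT2 : T2 ≤ T / 2 := by linarith [((le_max_left _ _).trans (le_max_right _ _)).trans hT]
    have hTT3 : T3 ≤ T := ((le_max_right _ _).trans (le_max_right _ _)).trans hT
    have hT20 : 20 ≤ T / 2 := hT2.trans hTT2
    have hlog := hT3 T hTT3
    have hlog0 : 0 < Real.log T := lt_of_lt_of_le (by positivity) hlog
    have hlog2 : 0 < Real.log (T / 2) := Real.log_pos (by linarith)
    have hlogle : Real.log (T / 2) ≤ Real.log T := Real.log_le_log (by linarith) (by linarith)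
    obtain ⟨A1, hA1, hs1, hc1⟩ := h1 T hTT1
    obtain ⟨A2, hA2, hs2, hc2⟩ := h2 (T / 2) hTT2
    set w : ℝ := 11 / 24 * (2 * Real.pi / Real.log T) with hw
    have hw0 : 0 < w := by positivity
    have hww : w ≤ 11 / 24 * (2 * Real.pi / Real.log (T / 2)) :=
      mul_le_mul_of_nonneg_left (div_le_div_of_nonneg_left (by positivity) hlog2 hlogle) (by norm_num)
    set B : Finset ℝ := A1.filter (fun x => T / 2 + w < x) with hB
    have hBc : A1.card ≤ B.card + 1 := by
      have h3 : (A1.filter (fun x => ¬ T / 2 + w < x)).card ≤ 1 := by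
        rw [Finset.card_le_one]
        intro x hx y hy
        rw [Finset.mem_filter, not_lt] at hx hy
        by_contra hne
        have h4 := hs1 x hx.1 y hy.1 hne
        have h5 := (hA1 x hx.1).1
        have h6 := (hA1 y hy.1).1
        have h7 : |x - y| ≤ w := by
          rw [abs_le]
          constructor <;> linarith
        linarith
      have h4 : (A1.filter (fun x => T / 2 + w < x)).card + (A1.filter (fun x => ¬ T / 2 + w < x)).card =
          A1.card := by
        convert Finset.card_filter_add_card_filter_not (s := A1) (fun x => T / 2 + w < x)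
      rw [← hB] at h4
      omega
    have hdisj : Disjoint B A2 := by
      rw [Finset.disjoint_left]
      intro x hx hx2
      have h3 := (Finset.mem_filter.1 hx).2
      have h4 := (hA2 x hx2).2.1
      linarith
    refine ⟨B ∪ A2, ?_, ?_, ?_⟩
    · intro x hx
      rcases Finset.mem_union.1 hx with h | h
      · have h3 := hA1 x (Finset.mem_filter.1 h).1
        exact ⟨by linarith [h3.1], h3.2.1, h3.2.2⟩
      · have h3 := hA2 x h
        exact ⟨h3.1, by linarith [h3.2.1], h3.2.2⟩
    · intro x hx y hy hxy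
      rcases Finset.mem_union.1 hx with h | h <;> rcases Finset.mem_union.1 hy with h' | h'
      · exact hs1 x (Finset.mem_filter.1 h).1 y (Finset.mem_filter.1 h').1 hxy
      · have h3 := (Finset.mem_filter.1 h).2
        have h4 := (hA2 y h').2.1
        rw [abs_of_pos (by linarith)]
        linarith
      · have h3 := (Finset.mem_filter.1 h').2
        have h4 := (hA2 x h).2.1
        rw [abs_of_neg (by linarith)]
        linarith
      · exact lt_of_le_of_lt hww (hs2 x h y h' hxy)
    · rw [Finset.card_union_of_disjoint hdisj]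
      push_cast
      have hBc' : (A1.card : ℝ) ≤ B.card + 1 := by exact_mod_cast hBc
      have hg := cMTinv_gt_one
      have hn := Expl.cMTinv_num
      norm_num at hn
      have hM2 : 1 / 2 * MT T - T ≤ MT (T / 2) := by
        have h4 : Real.log (T / 2) = Real.log T - Real.log 2 := Real.log_div (by linarith) (by norm_num)
        have h5 : MT (T / 2) = 1 / 2 * MT T - T * Real.log 2 / (4 * Real.pi) := by
          unfold MT
          rw [h4]
          field_simp
          ring
        have h6 : T * Real.log 2 / (4 * Real.pi) ≤ T := by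
          rw [div_le_iff₀ (by positivity)]
          have h7 : Real.log 2 ≤ 1 := by
            have := Real.log_two_lt_d9
            linarith
          have h8 := Real.pi_gt_three
          have h9 : 0 < T := by linarith
          nlinarith
        linarith
      have h2K : (0 : ℝ) < 1 / 2 ^ K := by positivity
      have h2K1 : (1 : ℝ) / 2 ^ K ≤ 1 := by
        rw [div_le_one (by positivity)]
        exact one_le_pow₀ (by norm_num)
      have e1 : (1 : ℝ) / 2 ^ (K + 1) = 1 / 2 * (1 / 2 ^ K) := by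
        rw [pow_succ]
        field_simp
      set q : ℝ := 1 / 2 ^ K with hq
      rw [e1]
      have hMT0 : 0 ≤ MT T := by
        unfold MT
        have : 0 < T := by linarith
        positivity
      have hbig : T + 1 ≤ η / 4 * MT T := by
        unfold MT
        rw [div_le_iff₀ hη] at hlog
        have e : η / 4 * (T * Real.log T / (2 * Real.pi)) = T * ((Real.log T * η) / (8 * Real.pi)) := by
          field_simp
          ring
        rw [e]
        have h3 : 2 ≤ (Real.log T * η) / (8 * Real.pi) := by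
          rw [le_div_iff₀ (by positivity)]
          linarith
        nlinarith
      set a : ℝ := 2 - cMTinv with ha
      have h6 : 0 ≤ a - η / 2 := by rw [ha]; linarith
      have h7 : a - η / 2 ≤ 1 := by rw [ha]; linarith
      have h8 : (a - η / 2) * ((1 - q) * (1 / 2 * MT T - T)) ≤ A2.card := by
        refine le_trans ?_ hc2
        refine mul_le_mul_of_nonneg_left (mul_le_mul_of_nonneg_left hM2 (by linarith)) h6
      have h9 : (a - η / 2) * ((1 - q) * T) ≤ T := by
        have h10 : 0 ≤ (1 - q) * T := mul_nonneg (by linarith) (by linarith)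
        have h11 : (1 - q) * T ≤ T := by nlinarith
        nlinarith
      have h10 : (a - η / 2) * ((1 - q) * (1 / 2 * MT T - T)) =
          (a - η / 2) * ((1 - q) * (1 / 2 * MT T)) - (a - η / 2) * ((1 - q) * T) := by ring
      have h12 : (a - η) * ((1 - 1 / 2 * q) * MT T) =
          (a - η / 2) * (1 / 2 * MT T) + (a - η / 2) * ((1 - q) * (1 / 2 * MT T)) -
            η / 2 * ((1 - 1 / 2 * q) * MT T) := by ring
      have h13 : η / 4 * MT T ≤ η / 2 * ((1 - 1 / 2 * q) * MT T) := by
        have h14 : 0 ≤ η * MT T := by positivity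
        nlinarith
      linarith

/-- **Separated simple critical zeros in `(0, T]`.** -/
theorem sepset {F : ℂ → ℂ} (hF : GoodL F) (η : ℝ) (hη : 0 < η) : ∃ T0 : ℝ, 20 ≤ T0 ∧
    ∀ T : ℝ, T0 ≤ T → ∃ A : Finset ℝ, (∀ x ∈ A, 0 < x ∧ x ≤ T ∧ SC F x) ∧
      (∀ x ∈ A, ∀ y ∈ A, x ≠ y → 11 / 24 * (2 * Real.pi / Real.log T) < |x - y|) ∧
      (2 - cMTinv - η) * MT T ≤ A.card := by
  set η' : ℝ := min η (1 / 2) with hη'
  have h0 : 0 < η' := lt_min hη (by norm_num)
  have h1 : η' ≤ 1 / 2 := min_le_right _ _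
  have h2 : η' ≤ η := min_le_left _ _
  obtain ⟨K, hK⟩ := exists_pow_lt_of_lt_one (half_pos h0) (by norm_num : (1 / 2 : ℝ) < 1)
  obtain ⟨T0, hT0, h⟩ := dyadic hF K (η' / 2) (by positivity) (by linarith)
  refine ⟨T0, hT0, fun T hT => ?_⟩
  obtain ⟨A, hA, hs, hc⟩ := h T hT
  refine ⟨A, hA, hs, le_trans ?_ hc⟩
  have hpi := Real.pi_pos
  have hMT0 : 0 ≤ MT T := by
    unfold MT
    have : 0 < T := by linarith
    have : 0 ≤ Real.log T := Real.log_nonneg (by linarith)
    positivity
  have hg := cMTinv_gt_one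
  have hn := Expl.cMTinv_num
  norm_num at hn
  rw [one_div, inv_pow, ← one_div] at hK
  rw [← mul_assoc]
  refine mul_le_mul_of_nonneg_right ?_ hMT0
  have h2K : (0 : ℝ) < 1 / 2 ^ K := by positivity
  set q : ℝ := 1 / 2 ^ K with hq
  set a : ℝ := 2 - cMTinv with ha
  have h6 : 0 ≤ a - η' / 2 := by rw [ha]; linarith
  have h7 : a - η' / 2 ≤ 1 := by rw [ha]; linarith
  nlinarith

end Pool.Agent.Q34.IPZ
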