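import Pool.Agent.Q34.IPZ.Hom
import Pool.Agent.Q34.SP.Main
import Pool.Agent.H370R2.Expl1

/-!
# Homothetic patterns of simple critical zeros
-/

set_option autoImplicit false

open MeasureTheory Set Function Filter
open scoped ENNReal

namespace Pool.Agent.Q34.IPZ

open H370

/-- the `t` with a point of `Z` in `(t, t + w]` -/
def Nb (Z : Finset ℝ) (w : ℝ) : Set ℝ := {t | ∃ x ∈ Z, t < x ∧ x ≤ t + w}

theorem Nb_eq (Z : Finset ℝ) (w : ℝ) : Nb Z w = ⋃ x ∈ Z, Ico (x - w) x := by
  ext t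
  simp only [Nb, mem_ofPred_eq, mem_iUnion, mem_Ico, exists_prop]
  constructor
  · rintro ⟨x, hx, h1, h2⟩
    exact ⟨x, hx, by linarith, h1⟩
  · rintro ⟨x, hx, h1, h2⟩
    exact ⟨x, hx, h2, by linarith⟩

theorem Nb_meas (Z : Finset ℝ) (w : ℝ) : MeasurableSet (Nb Z w) := by
  rw [Nb_eq]
  exact Finset.measurableSet_biUnion _ fun _ _ => measurableSet_Ico

theorem vol_Nb {A Z : Finset ℝ} (hA : A ⊆ Z) {w : ℝ} (hw : 0 ≤ w)
    (hsep : ∀ x ∈ A, ∀ y ∈ A, x ≠ y → w < |x - y|) :
    ENNReal.ofReal (w * A.card) ≤ volume (Nb Z w) := by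
  have h1 : (⋃ x ∈ A, Ico (x - w) x) ⊆ Nb Z w := by
    rw [Nb_eq]
    exact iUnion₂_subset fun x hx => subset_iUnion₂_of_subset x (hA hx) (Subset.refl _)
  refine le_trans (le_of_eq ?_) (measure_mono h1)
  rw [measure_biUnion_finset _ fun _ _ => measurableSet_Ico]
  · simp only [Real.volume_Ico]
    have : ∀ x ∈ A, ENNReal.ofReal (x - (x - w)) = ENNReal.ofReal w := fun x _ => by congr 1; ring
    rw [Finset.sum_congr rfl this, Finset.sum_const, nsmul_eq_mul, ← ENNReal.ofReal_natCast,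
      ← ENNReal.ofReal_mul (by positivity)]
    congr 1
    ring
  · intro x hx y hy hxy
    have h2 := hsep x hx y hy hxy
    rw [Function.onFun, Set.disjoint_left]
    intro t ht ht'
    rw [mem_Ico] at ht ht'
    rcases le_or_gt x y with h | h
    · rw [abs_of_nonpos (by linarith)] at h2
      linarith
    · rw [abs_of_pos (by linarith)] at h2
      linarith

/-- the approximate copies of the pattern `f` with dilation `h` -/
def Tup {k : ℕ} (Z : Finset ℝ) (w : ℝ) (f : Fin k → ℝ) (h : ℝ) : Set (Fin k → ℝ) :=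
  {x | (∀ j, x j ∈ Z) ∧ ∀ i j, |x j - x i - (f j - f i) * h| ≤ w}

theorem Tup_finite {k : ℕ} (Z : Finset ℝ) (w : ℝ) (f : Fin k → ℝ) (h : ℝ) : (Tup Z w f h).Finite := by
  refine (Set.Finite.pi (t := fun _ : Fin k => (Z : Set ℝ)) fun _ => Z.finite_toSet).subset ?_
  intro x hx
  rw [Set.mem_univ_pi]
  exact fun j => hx.1 j

theorem tuples {k : ℕ} (hk : 1 ≤ k) (Z : Finset ℝ) {w : ℝ} (hw : 0 ≤ w) (f : Fin k → ℝ) (h : ℝ) :
    volume {u : ℝ | ∀ j, u + h * f j ∈ Nb Z w} ≤ ENNReal.ofReal (w * (Tup Z w f h).ncard) := by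
  classical
  set P : Finset (Fin k → ℝ) := (Tup_finite Z w f h).toFinset with hP
  set j0 : Fin k := ⟨0, by omega⟩ with hj0
  have h1 : {u : ℝ | ∀ j, u + h * f j ∈ Nb Z w} ⊆
      ⋃ x ∈ P, Ico (x j0 - h * f j0 - w) (x j0 - h * f j0) := by
    intro u hu
    choose x hx1 hx2 hx3 using hu
    simp only [mem_iUnion, mem_Ico, exists_prop]
    refine ⟨x, ?_, ?_, ?_⟩
    · rw [hP, Set.Finite.mem_toFinset]
      refine ⟨hx1, fun i j => ?_⟩
      have a1 := hx2 i
      have a2 := hx3 i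
      have b1 := hx2 j
      have b2 := hx3 j
      rw [abs_le]
      constructor <;> nlinarith
    · have := hx3 j0
      linarith
    · have := hx2 j0
      linarith
  refine (measure_mono h1).trans ((measure_biUnion_finset_le _ _).trans (le_of_eq ?_))
  simp only [Real.volume_Ico]
  have : ∀ x ∈ P, ENNReal.ofReal (x j0 - h * f j0 - (x j0 - h * f j0 - w)) = ENNReal.ofReal w :=
    fun x _ => by congr 1; ring
  rw [Finset.sum_congr rfl this, Finset.sum_const, nsmul_eq_mul, ← ENNReal.ofReal_natCast,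
    ← ENNReal.ofReal_mul (by positivity), ← Set.ncard_eq_toFinset_card _ (Tup_finite Z w f h)]
  congr 1
  ring

/-- the density of the simple critical zeros -/
theorem dens {F : ℂ → ℂ} (hF : GoodL F) : ∃ T0 : ℝ, 10 ≤ T0 ∧ ∀ T : ℝ, T0 ≤ T → ∀ ε : ℝ, 0 < ε → ε ≤ 11 / 24 →
    ENNReal.ofReal (ε / 8 * (T + 1)) ≤ volume (Nb (SF F T (2 * T)) (ε * (2 * Real.pi / Real.log T))) := by
  obtain ⟨δ, hδ, T1, hT1, hsep⟩ := Pool.Agent.Q34.SP.separated hF (lam := 11 / 24) (c0 := 1) (by norm_num)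
    (by norm_num) (by norm_num) Pool.Agent.Q34.SP.block_one 0.1 (by norm_num)
  obtain ⟨C, T2, hC, hT2, hasy⟩ := nn_asymp hF
  have hpi := Real.pi_pos
  have ev : ∀ᶠ T : ℝ in atTop, 20 * Real.pi * (C + 1) ≤ Real.log T :=
    Real.tendsto_log_atTop.eventually_ge_atTop _
  obtain ⟨T3, hT3⟩ := ev.exists_forall_of_atTop
  refine ⟨max T1 (max T2 T3), le_max_of_le_left hT1, fun T hT ε hε hε1 => ?_⟩
  have hTT1 : T1 ≤ T := (le_max_left _ _).trans hT
  have hTT2 : T2 ≤ T := ((le_max_left _ _).trans (le_max_right _ _)).trans hT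
  have hTT3 : T3 ≤ T := ((le_max_right _ _).trans (le_max_right _ _)).trans hT
  have hT10 : 10 ≤ T := hT1.trans hTT1
  have hlog := hT3 T hTT3
  have hlog0 : 0 < Real.log T := lt_of_lt_of_le (by positivity) hlog
  obtain ⟨⟨A, hA, hAs, hAc⟩, -⟩ := hsep T hTT1
  have h2 := (abs_le.1 (hasy T hTT2 T (2 * T) le_rfl (by linarith) (by linarith) le_rfl)).1
  set w : ℝ := ε * (2 * Real.pi / Real.log T) with hw
  have hw0 : 0 < w := by positivity
  refine le_trans (ENNReal.ofReal_le_ofReal ?_) (vol_Nb hA hw0.le fun x hx y hy hxy => ?_)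
  · have h3 : (0.57 : ℝ) * (NN F T (2 * T) : ℝ) ≤ A.card := by
      have h4 := Expl.cMTinv_num
      norm_num at h4
      have h5 : (0 : ℝ) ≤ (NN F T (2 * T) : ℝ) := Nat.cast_nonneg _
      have h6 : (0.57 : ℝ) ≤ 2 - cMTinv - 0.1 := by norm_num at h4 ⊢; linarith
      have h7 := mul_le_mul_of_nonneg_right h6 h5
      linarith
    have h4 : T * Real.log T / (4 * Real.pi) ≤ (NN F T (2 * T) : ℝ) := by
      have h5 : (C + 1) * T ≤ T * Real.log T / (4 * Real.pi) := by
        rw [le_div_iff₀ (by positivity)]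
        have : (C + 1) * T * (4 * Real.pi) = T * (4 * Real.pi * (C + 1)) := by ring
        rw [this]
        refine mul_le_mul_of_nonneg_left (le_trans ?_ hlog) (by linarith)
        have : 0 < Real.pi * (C + 1) := by positivity
        nlinarith
      have h6 : T * Real.log T / (2 * Real.pi) = T * Real.log T / (4 * Real.pi) + T * Real.log T / (4 * Real.pi) := by
        field_simp
        ring
      have h7 : (2 * T - T) * Real.log T / (2 * Real.pi) = T * Real.log T / (2 * Real.pi) := by ring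
      first
        | (rw [h7] at h2; nlinarith)
        | nlinarith
    have h5 : (0.57 : ℝ) * (T * Real.log T / (4 * Real.pi)) ≤ A.card := by
      refine le_trans (mul_le_mul_of_nonneg_left h4 (by norm_num)) h3
    calc ε / 8 * (T + 1) ≤ ε * (0.57 / 2) * T := by nlinarith
      _ = w * ((0.57 : ℝ) * (T * Real.log T / (4 * Real.pi))) := by
          rw [hw]
          field_simp
          ring
      _ ≤ w * A.card := mul_le_mul_of_nonneg_left h5 hw0.le
  · refine lt_of_le_of_lt ?_ (hAs x hx y hy hxy)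
    rw [hw]
    refine mul_le_mul_of_nonneg_right ?_ (by positivity)
    nlinarith

end Pool.Agent.Q34.IPZ
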